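import Pool.Agent.H424R3.LN.Asm
import Pool.Agent.H424R3.LN.TaskMu
import Pool.Agent.H424R3.LN.TaskTree
import Pool.Agent.H424R3.LN.TaskCore
import Pool.Agent.H419R3.LN.TaskUniq
import Pool.Agent.H424R3.LN.TaskCyl
import Pool.Agent.H424R3.LN.TaskMeas
import Pool.Agent.H424R3.LN.TaskSwap
import Pool.Agent.H424R3.LN.TaskEquiv
import Pool.Agent.H886R3.TaskLNSupp
import Pool.Agent.H424R3.LN.TaskDens

set_option autoImplicit false

open MeasureTheory Filter Pool.Agent.H424R3.LN
open scoped ENNReal Topology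

namespace Pool.Agent.Results.MP_f65c66_pr.DenseLineEnsembles

/-- Every infinite unimodular tree with root degree at most `d` contains an invariant line
ensemble of density at least `f (E deg / d)`, where `f x = 3 x - 2` tends to `1` as `x → 1`. -/
theorem result : ∃ f : ℝ → ℝ, (∀ x, f x = 3 * x - 2) ∧ Tendsto f (𝓝 1) (𝓝 1) ∧
    ∀ (d : ℕ), 2 ≤ d → ∀ {Ω : Type} [MeasurableSpace Ω] (P : Measure Ω) [IsProbabilityMeasure P]
      (X : RandomTree P), X.Unimodular →
      (∀ᵐ ω ∂P, ((X.graph ω).neighborSet (X.root ω)).ncard ≤ d) →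
      ∃ (Ω' : Type) (_ : MeasurableSpace Ω') (P' : Measure Ω') (π : Ω' → Ω)
        (L : Ω' → SimpleGraph ℕ), IsProbabilityMeasure P' ∧ MeasurePreserving π P' P ∧
        Measurable L ∧
        (∀ᵐ ω' ∂P', IsLineEnsemble (X.graph (π ω')) (L ω')) ∧
        UnimodularMarked P' (fun ω' => X.graph (π ω')) L (fun ω' => X.root (π ω')) ∧
        f ((∫ ω, (((X.graph ω).neighborSet (X.root ω)).ncard : ℝ) ∂P) / d) ≤
          (P' {ω' | ∃ y, (L ω').Adj (X.root (π ω')) y}).toReal :=
  main
    { mu := Pool.Agent.H424R3.LN.taskMu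
      tree := Pool.Agent.H424R3.LN.TreeFile.taskTree
      core := Pool.Agent.H424R3.LN.TaskCoreNS.taskCore
      uniq := Pool.Agent.H419R3.LN.taskUniq
      cyl := Pool.Agent.H424R3.LN.Cyl.taskCyl
      meas := Pool.Agent.H424R3.LN.MeasNS.taskMeas
      swap := Pool.Agent.H424R3.LN.Swap.taskSwap
      equiv := Pool.Agent.H424R3.LN.EquivT.taskEquiv
      supp := Pool.Agent.H886R3.LN.taskSupp
      dens := Pool.Agent.H424R3.LN.Dens.taskDens }

end Pool.Agent.Results.MP_f65c66_pr.DenseLineEnsembles
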